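import Pool.Agent.Lib.MP_ee3a40_co.Final

/-!
# Multiples of chromatic roots

A complex number is a *chromatic root* if it is a zero of the chromatic polynomial of some finite
simple graph with at least one vertex.  The set of chromatic roots is closed under the maps
`z ↦ n z + m` for all integers `n ≥ 1` and `m ≥ 0`.
-/

set_option autoImplicit false

open Polynomial

namespace Pool.Agent.Results.MP_ee3a40_co.ScaledRoots

universe u

/-- `P` is the chromatic polynomial of `G`: for every positive integer `q` its value at `q` is the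
number of proper colourings of the vertices of `G` with `q` colours. -/
def IsChromaticPolynomial {V : Type u} (G : SimpleGraph V) (P : ℂ[X]) : Prop :=
  ∀ q : ℕ, 0 < q → P.eval (q : ℂ) = (Nat.card (G.Coloring (Fin q)) : ℂ)

/-- `z` is a root of the chromatic polynomial of a finite simple graph with at least one vertex. -/
def IsChromaticRoot (z : ℂ) : Prop :=
  ∃ (V : Type) (_ : Finite V) (_ : Nonempty V) (G : SimpleGraph V) (P : ℂ[X]),
    IsChromaticPolynomial G P ∧ P.eval z = 0

open Pool.Agent.Lib.MP_ee3a40_co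

theorem unique {V : Type u} {G : SimpleGraph V} {P : ℂ[X]} {Q : ℤ[X]}
    (hP : IsChromaticPolynomial G P) (hQ : IsChrom G Q) : P = Q.map (Int.castRingHom ℂ) := by
  apply Polynomial.eq_of_infinite_eval_eq
  apply Set.Infinite.mono (s := (fun q : ℕ => (q : ℂ)) '' Set.Ioi 0)
  · rintro _ ⟨q, hq, rfl⟩
    have h1 := hQ q
    have h2 := hP q hq
    show P.eval (q : ℂ) = (Q.map (Int.castRingHom ℂ)).eval (q : ℂ)
    rw [h2, eval_natCast_map, h1]
    simp
  · exact (Set.Ioi_infinite 0).image (fun a _ b _ h => by exact_mod_cast h)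

theorem root_iff (z : ℂ) : IsChromaticRoot z ↔ IsRootC z := by
  constructor
  · rintro ⟨V, hV, -, G, P, hP, hz⟩
    obtain ⟨Q, hQ, -, -⟩ := exists_chrom G
    let e : V ≃ Fin (Nat.card V) := Finite.equivFin V
    refine ⟨Nat.card V, G.comap e.symm, Q, ?_, ?_⟩
    · exact hQ.congr e (by intro a b; simp)
    · rw [unique hP hQ, eval_map] at hz
      rw [aeval_def]
      exact hz
  · rintro ⟨m, G, P, hP, hz⟩
    rcases Nat.eq_zero_or_pos m with hm | hm
    · subst hm
      rw [hP.unique (chrom_of_isEmpty G)] at hz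
      simp at hz
    · refine ⟨Fin m, inferInstance, ⟨⟨0, hm⟩⟩, G, P.map (Int.castRingHom ℂ), ?_, ?_⟩
      · intro q hq
        have h1 := hP q
        rw [eval_natCast_map, h1]
        simp
      · rw [eval_map]
        rw [aeval_def] at hz
        exact hz

/-- The set of chromatic roots is closed under `z ↦ n z + m`. -/
theorem scale_shift {α : ℂ} (hr : IsRootC α) (n m : ℕ) (hn : 0 < n) :
    IsRootC ((n : ℂ) * α + m) := by
  by_cases htriv : n = 1 ∧ m = 0
  · obtain ⟨rfl, rfl⟩ := htriv
    simpa using hr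
  by_cases hnat : ∃ k : ℕ, (n : ℂ) * α + m = k
  · obtain ⟨k, hk⟩ := hnat
    rw [hk]; exact nat_root k
  push Not at hnat
  obtain ⟨N, G, P, hP, h0⟩ := hr
  obtain ⟨P', hP', hmon, -⟩ := exists_chrom G
  have hPP := hP.unique hP'
  have hn0 : (n : ℂ) ≠ 0 := Nat.cast_ne_zero.2 (by omega)
  have hα : IsIntegral ℤ α := ⟨P, hPP ▸ hmon, h0⟩
  have hcast : ∀ j : ℕ, IsIntegral ℤ (j : ℂ) := fun j => by
    have h := isIntegral_algebraMap (R := ℤ) (A := ℂ) (x := (j : ℤ))
    simpa using h
  have hβ : IsIntegral ℤ ((n : ℂ) * α + m) := ((hcast n).mul hα).add (hcast m)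
  apply universality hβ hnat
  intro z hz him
  have hz' : aeval ((z - m) / n) P = 0 := by
    let R : ℚ[X] := (P.map (Int.castRingHom ℚ)).comp (C (1 / (n : ℚ)) * (X - C (m : ℚ)))
    have hR : ∀ w : ℂ, aeval w R = aeval ((w - m) / n) P := by
      intro w
      simp only [R, aeval_comp, map_mul, map_sub, aeval_C, aeval_X]
      rw [show (Int.castRingHom ℚ) = algebraMap ℤ ℚ from rfl, aeval_map_algebraMap]
      congr 2
      simp
      field_simp
    have h1 : aeval ((n : ℂ) * α + m) R = 0 := by
      rw [hR, add_sub_cancel_right, mul_div_cancel_left₀ _ hn0, h0]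
    obtain ⟨Q, hQ⟩ := minpoly.dvd ℚ _ h1
    rw [← hR, hQ, map_mul, hz, zero_mul]
  have hzre : z = (z.re : ℂ) := Complex.ext (by simp) (by simp [him])
  have hx : aeval ((z.re - m) / n : ℝ) P = 0 := by
    have h1 : aeval ((((z.re - m) / n : ℝ) : ℂ)) P = 0 := by
      push_cast
      rw [← hzre]; exact hz'
    have h3 : aeval (algebraMap ℝ ℂ ((z.re - m) / n)) P =
        algebraMap ℝ ℂ (aeval ((z.re - m) / n) P) := aeval_algebraMap_apply ℂ _ P
    have h4 : algebraMap ℝ ℂ (aeval ((z.re - m) / n) P) = 0 := by rw [← h3]; exact h1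
    exact (algebraMap ℝ ℂ).injective (by rw [h4, map_zero])
  have hrat : ∀ j : ℕ, z.re ≠ j := by
    intro j hj
    apply hnat j
    have := eq_of_rat_root (r := j) hβ.tower_top (by
      rw [hzre, hj] at hz
      simpa using hz)
    rw [this]; simp
  have hnr : (0 : ℝ) < n := by exact_mod_cast hn
  have hnm : (2 : ℝ) ≤ (n : ℝ) + m := by
    have : 2 ≤ n + m := by omega
    exact_mod_cast this
  rcases real_root _ N (Fin N) G P (by simp) hP hx with h5 | h5
  · exfalso
    apply hrat m
    rcases div_eq_zero_iff.1 h5 with h | h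
    · linarith
    · exact absurd h hnr.ne'
  · rw [le_div_iff₀ hnr, one_mul] at h5
    have h6 := hrat 2
    push_cast at h6
    exact lt_of_le_of_ne (by linarith) (Ne.symm h6)

/-- Every algebraic integer all of whose real conjugates are larger than two is a chromatic
root. -/
theorem large_conjugates {β : ℂ} (hβ : IsIntegral ℤ β)
    (hx : ∀ x : ℝ, aeval (x : ℂ) (minpoly ℚ β) = 0 → 2 < x) : IsChromaticRoot β := by
  rw [root_iff]
  by_cases hnat : ∃ k : ℕ, β = k
  · obtain ⟨k, rfl⟩ := hnat
    exact nat_root k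
  · push Not at hnat
    refine universality hβ hnat fun z hz him => ?_
    have hzre : z = (z.re : ℂ) := Complex.ext (by simp) (by simp [him])
    exact hx z.re (by rw [← hzre]; exact hz)

/-- **Theorem.**  If `α` is a chromatic root then `n α + m` is a chromatic root for all integers
`n ≥ 1` and `m ≥ 0` (`m = 0` is the question). -/
theorem result (α : ℂ) (hα : IsChromaticRoot α) (n : ℕ) (hn : 0 < n) (m : ℕ) :
    IsChromaticRoot (n * α + m) := by
  rw [root_iff] at hα ⊢
  exact scale_shift hα n m hn

end Pool.Agent.Results.MP_ee3a40_co.ScaledRoots
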